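import Mathlib

/-!
# An upper bound for the number of edges of a graph without the configuration
(two disjoint edges with two common neighbours)
-/

namespace Pool.Agent.Helper47_Orient

open Finset

/-- Two disjoint edges `ab`, `cd` all of whose ends are adjacent to two distinct vertices
`x`, `y`. -/
def Config {V : Type*} (G : SimpleGraph V) : Prop :=
  ∃ a b c d x y : V, G.Adj a b ∧ G.Adj c d ∧ a ≠ c ∧ a ≠ d ∧ b ≠ c ∧ b ≠ d ∧ x ≠ y ∧
    G.Adj a x ∧ G.Adj b x ∧ G.Adj c x ∧ G.Adj d x ∧ G.Adj a y ∧ G.Adj b y ∧ G.Adj c y ∧ G.Adj d y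

section

variable {V : Type} [Fintype V] [DecidableEq V] (G : SimpleGraph V) [DecidableRel G.Adj]

/-- If a set `Q` misses few neighbours of each of four vertices, there are two common
neighbours. -/
lemma exists_two_common (Q : Finset V) (p q r t : V)
    (h : (Q \ G.neighborFinset p).card + (Q \ G.neighborFinset q).card
      + (Q \ G.neighborFinset r).card + (Q \ G.neighborFinset t).card + 2 ≤ Q.card) :
    ∃ x y : V, x ≠ y ∧ G.Adj p x ∧ G.Adj q x ∧ G.Adj r x ∧ G.Adj t x ∧
      G.Adj p y ∧ G.Adj q y ∧ G.Adj r y ∧ G.Adj t y := by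
  set C := Q.filter (fun x => G.Adj p x ∧ G.Adj q x ∧ G.Adj r x ∧ G.Adj t x) with hC
  have hsub : Q ⊆ C ∪ ((Q \ G.neighborFinset p) ∪ (Q \ G.neighborFinset q)
      ∪ (Q \ G.neighborFinset r) ∪ (Q \ G.neighborFinset t)) := by
    intro x hx
    by_cases h1 : G.Adj p x <;> by_cases h2 : G.Adj q x <;> by_cases h3 : G.Adj r x <;>
      by_cases h4 : G.Adj t x <;> simp [hC, hx, h1, h2, h3, h4]
  have hcard := card_le_card hsub
  have h5 := card_union_le C ((Q \ G.neighborFinset p) ∪ (Q \ G.neighborFinset q)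
      ∪ (Q \ G.neighborFinset r) ∪ (Q \ G.neighborFinset t))
  have h6 := card_union_le ((Q \ G.neighborFinset p) ∪ (Q \ G.neighborFinset q)
      ∪ (Q \ G.neighborFinset r)) (Q \ G.neighborFinset t)
  have h7 := card_union_le ((Q \ G.neighborFinset p) ∪ (Q \ G.neighborFinset q))
      (Q \ G.neighborFinset r)
  have h8 := card_union_le (Q \ G.neighborFinset p) (Q \ G.neighborFinset q)
  have h9 : 1 < C.card := by omega
  obtain ⟨x, hx, y, hy, hxy⟩ := Finset.one_lt_card.1 h9
  simp only [hC, mem_filter] at hx hy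
  exact ⟨x, y, hxy, hx.2.1, hx.2.2.1, hx.2.2.2.1, hx.2.2.2.2, hy.2.1, hy.2.2.1, hy.2.2.2.1,
    hy.2.2.2.2⟩

/-- Some edge has at least `m/6` common neighbours. -/
lemma exists_book (hdeg : ∀ v, Fintype.card V + 1 ≤ 2 * G.degree v) (hpos : 0 < Fintype.card V) :
    ∃ a b : V, G.Adj a b ∧
      Fintype.card V ≤ 6 * (G.neighborFinset a ∩ G.neighborFinset b).card := by
  have hne : Nonempty V := Fintype.card_pos_iff.1 hpos
  obtain ⟨a⟩ := hne
  have ha := hdeg a
  have hda : 0 < G.degree a := by omega
  obtain ⟨b, hb⟩ := (G.degree_pos_iff_exists_adj a).1 hda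
  have hun : ∀ X Y : Finset V, X.card + Y.card ≤ Fintype.card V + (X ∩ Y).card := by
    intro X Y
    have h1 := card_union_add_card_inter X Y
    have h2 : (X ∪ Y).card ≤ Fintype.card V := card_le_univ _
    omega
  have h1 := hun (G.neighborFinset a) (G.neighborFinset b)
  rw [SimpleGraph.card_neighborFinset_eq_degree, SimpleGraph.card_neighborFinset_eq_degree] at h1
  have hb' := hdeg b
  have h2 : 0 < (G.neighborFinset a ∩ G.neighborFinset b).card := by omega
  obtain ⟨c, hc⟩ := Finset.card_pos.1 h2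
  simp only [mem_inter, SimpleGraph.mem_neighborFinset] at hc
  have hc' := hdeg c
  set X := G.neighborFinset a
  set Y := G.neighborFinset b
  set Z := G.neighborFinset c
  have hX : X.card = G.degree a := G.card_neighborFinset_eq_degree a
  have hY : Y.card = G.degree b := G.card_neighborFinset_eq_degree b
  have hZ : Z.card = G.degree c := G.card_neighborFinset_eq_degree c
  have h3 := card_union_add_card_inter X Y
  have h4 := hun (X ∪ Y) Z
  have h5 : ((X ∪ Y) ∩ Z).card ≤ (X ∩ Z).card + (Y ∩ Z).card := by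
    rw [union_inter_distrib_right]; exact card_union_le _ _
  by_cases hab : Fintype.card V ≤ 6 * (X ∩ Y).card
  · exact ⟨a, b, hb, hab⟩
  by_cases hac : Fintype.card V ≤ 6 * (X ∩ Z).card
  · exact ⟨a, c, hc.1, hac⟩
  refine ⟨b, c, hc.2, ?_⟩
  change Fintype.card V ≤ 6 * (Y ∩ Z).card
  omega

/-- A vertex whose neighbourhood, up to two vertices, spans few edges. -/
lemma exists_sparse (hG : ¬ Config G) (hdeg : ∀ v, Fintype.card V + 1 ≤ 2 * G.degree v)
    (hpos : 0 < Fintype.card V) :
    ∃ S : Finset V, Fintype.card V ≤ 2 * S.card + 3 ∧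
      ((S ×ˢ S).filter (fun p => G.Adj p.1 p.2)).card ≤ 6 * Fintype.card V := by
  obtain ⟨a, b, hab, hbook⟩ := exists_book G hdeg hpos
  set B := G.neighborFinset a ∩ G.neighborFinset b with hB
  let S : V → Finset V := fun x => G.neighborFinset x \ {a, b}
  let T : V → Finset (V × V) := fun x => ((S x) ×ˢ (S x)).filter (fun p => G.Adj p.1 p.2)
  have hsum : ∑ x ∈ B, (T x).card ≤ Fintype.card V * Fintype.card V := by
    have h1 : ∑ x ∈ B, (T x).card = ∑ p : V × V, (B.filter (fun x => p ∈ T x)).card := by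
      have h2 : ∀ x ∈ B, (T x).card = ∑ p : V × V, if p ∈ T x then 1 else 0 := by
        intro x _
        simp
      rw [sum_congr rfl h2, sum_comm]
      refine sum_congr rfl fun p _ => ?_
      rw [card_filter]
    rw [h1]
    have h3 : ∀ p ∈ (univ : Finset (V × V)), (B.filter (fun x => p ∈ T x)).card ≤ 1 := by
      rintro ⟨c, d⟩ _
      rw [card_le_one]
      intro x hx y hy
      by_contra hxy
      apply hG
      simp only [T, S, hB, mem_filter, mem_inter, SimpleGraph.mem_neighborFinset, mem_product,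
        mem_sdiff, mem_insert, mem_singleton, not_or] at hx hy
      obtain ⟨⟨hxa, hxb⟩, ⟨⟨hxc, hca, hcb⟩, ⟨hxd, hda, hdb⟩⟩, hcd⟩ := hx
      obtain ⟨⟨hya, hyb⟩, ⟨⟨hyc, -, -⟩, ⟨hyd, -, -⟩⟩, -⟩ := hy
      exact ⟨a, b, c, d, x, y, hab, hcd, Ne.symm hca, Ne.symm hda, Ne.symm hcb, Ne.symm hdb, hxy,
        hxa, hxb, hxc.symm, hxd.symm, hya, hyb, hyc.symm, hyd.symm⟩
    calc ∑ p : V × V, (B.filter (fun x => p ∈ T x)).card ≤ ∑ p : V × V, 1 := sum_le_sum h3
      _ = Fintype.card V * Fintype.card V := by simp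
  have hex : ∃ x ∈ B, (T x).card ≤ 6 * Fintype.card V := by
    by_contra hcon
    push Not at hcon
    have h4 : ∑ x ∈ B, (6 * Fintype.card V + 1) ≤ ∑ x ∈ B, (T x).card :=
      sum_le_sum fun x hx => hcon x hx
    rw [sum_const, smul_eq_mul] at h4
    have h5 : 0 < B.card := by omega
    nlinarith
  obtain ⟨x, hx, hTx⟩ := hex
  refine ⟨S x, ?_, hTx⟩
  have h6 : (G.neighborFinset x).card ≤ (S x).card + 2 := by
    have h7 := card_sdiff_add_card (G.neighborFinset x) {a, b}
    have h8 : ({a, b} : Finset V).card ≤ 2 := card_le_two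
    have h9 : (G.neighborFinset x).card ≤ (G.neighborFinset x ∪ {a, b}).card :=
      card_le_card subset_union_left
    simp only [S]
    omega
  rw [G.card_neighborFinset_eq_degree] at h6
  have := hdeg x
  omega

/-- The number of neighbours of `v` in `P`. -/
noncomputable def dg (P : Finset V) (v : V) : ℝ := ((G.neighborFinset v ∩ P).card : ℝ)

/-- The bad vertices of `P` with respect to `Q`: those that miss at least `m/1000` of `Q`. -/
noncomputable def bad (P Q : Finset V) : Finset V :=
  by classical exact P.filter (fun v => (Fintype.card V : ℝ) / 1000 ≤ (Q.card : ℝ) - dg G Q v)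

/-- The vertices with few neighbours in `P`. -/
noncomputable def few (P : Finset V) : Finset V :=
  by classical exact univ.filter (fun v => dg G P v < (Fintype.card V : ℝ) / 1000)

/-- A balanced nearly complete bipartition. -/
structure Split (P Q : Finset V) : Prop where
  disj : Disjoint P Q
  cov : P ∪ Q = univ
  hP : (P.card : ℝ) ≤ (Fintype.card V : ℝ) / 2 + 18
  hQ : (Q.card : ℝ) ≤ (Fintype.card V : ℝ) / 2 + 18
  badP : ((bad G P Q).card : ℝ) ≤ 8000
  badQ : ((bad G Q P).card : ℝ) ≤ 8000

lemma Split.symm {P Q : Finset V} (h : Split G P Q) : Split G Q P :=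
  ⟨h.disj.symm, by rw [union_comm]; exact h.cov, h.hQ, h.hP, h.badQ, h.badP⟩

lemma dg_sum {P Q : Finset V} (hd : Disjoint P Q) (hc : P ∪ Q = univ) (v : V) :
    dg G P v + dg G Q v = G.degree v := by
  unfold dg
  rw [← G.card_neighborFinset_eq_degree, ← Nat.cast_add, ← card_union_of_disjoint, ←
    inter_union_distrib_left, hc, inter_univ]
  exact Disjoint.mono inter_subset_right inter_subset_right hd

lemma dg_le (P : Finset V) (v : V) : dg G P v ≤ P.card := by
  unfold dg
  exact_mod_cast card_le_card inter_subset_right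

lemma dg_nonneg (P : Finset V) (v : V) : 0 ≤ dg G P v := by
  unfold dg
  positivity

lemma card_sdiff_dg (Q : Finset V) (v : V) :
    ((Q \ G.neighborFinset v).card : ℝ) = Q.card - dg G Q v := by
  unfold dg
  have := card_sdiff_add_card_inter Q (G.neighborFinset v)
  rw [inter_comm (G.neighborFinset v) Q]
  have h2 : ((Q \ G.neighborFinset v).card : ℝ) + ((Q ∩ G.neighborFinset v).card : ℝ) = Q.card := by
    exact_mod_cast this
  linarith

lemma card_split {P Q : Finset V} (hd : Disjoint P Q) (hc : P ∪ Q = univ) :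
    (P.card : ℝ) + Q.card = Fintype.card V := by
  rw [← Nat.cast_add, ← card_union_of_disjoint hd, hc, card_univ]

/-- Existence of the bipartition. -/
lemma exists_split (hG : ¬ Config G) (hdeg : ∀ v, Fintype.card V + 1 ≤ 2 * G.degree v)
    (hbig : 10 ^ 9 ≤ Fintype.card V) : ∃ P Q : Finset V, Split G P Q := by
  classical
  obtain ⟨S, hS, hE⟩ := exists_sparse G hG hdeg (by omega)
  set m : ℝ := (Fintype.card V : ℝ) with hm
  have hmbig : (10 : ℝ) ^ 9 ≤ m := by rw [hm]; exact_mod_cast hbig
  have hcov : S ∪ Sᶜ = univ := union_compl S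
  have hdisj : Disjoint S Sᶜ := disjoint_compl_right
  have hcard := card_split hdisj hcov
  rw [← hm] at hcard
  set s : ℝ := (S.card : ℝ) with hs
  set q : ℝ := ((Sᶜ).card : ℝ) with hq
  have hdeg' : ∀ v, m / 2 + 1 / 2 ≤ (G.degree v : ℝ) := by
    intro v
    have : ((Fintype.card V + 1 : ℕ) : ℝ) ≤ ((2 * G.degree v : ℕ) : ℝ) := by
      exact_mod_cast hdeg v
    push_cast at this
    linarith
  have hS' : m ≤ 2 * s + 3 := by
    have : ((Fintype.card V : ℕ) : ℝ) ≤ ((2 * S.card + 3 : ℕ) : ℝ) := by exact_mod_cast hS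
    push_cast at this
    linarith
  have hE' : ∑ v ∈ S, dg G S v ≤ 6 * m := by
    have h1 : ∑ v ∈ S, dg G S v
        = ((((S ×ˢ S).filter (fun p => G.Adj p.1 p.2)).card : ℕ) : ℝ) := by
      rw [card_filter, sum_product]
      push_cast
      refine sum_congr rfl fun v _ => ?_
      unfold dg
      rw [inter_comm, ← filter_mem_eq_inter, card_filter]
      push_cast
      refine sum_congr rfl fun w _ => ?_
      simp
    rw [h1, hm]
    exact_mod_cast hE
  have hsum1 : ∑ v ∈ S, (m / 2 + 1 / 2) ≤ ∑ v ∈ S, (dg G S v + dg G Sᶜ v) := by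
    refine sum_le_sum fun v _ => ?_
    rw [dg_sum G hdisj hcov]
    exact hdeg' v
  rw [sum_const, nsmul_eq_mul, sum_add_distrib] at hsum1
  have hsum2 : ∑ v ∈ S, dg G Sᶜ v ≤ s * q := by
    calc ∑ v ∈ S, dg G Sᶜ v ≤ ∑ v ∈ S, q := sum_le_sum fun v _ => dg_le G _ v
      _ = s * q := by rw [sum_const, nsmul_eq_mul]
  have hs0 : 0 ≤ s := by positivity
  have hsm : s - m / 2 ≤ 18 := by
    by_contra hcon
    push Not at hcon
    have h2 : s * (m / 2 + 1 / 2) ≤ 6 * m + s * q := by linarith
    have h3 : q = m - s := by linarith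
    rw [h3] at h2
    have h4 : m / 3 ≤ s := by linarith
    nlinarith
  have hmiss : ∑ v ∈ S, (q - dg G Sᶜ v) ≤ 8 * m := by
    rw [sum_sub_distrib, sum_const, nsmul_eq_mul]
    have h3 : q = m - s := by linarith
    have h5 : s * (m / 2 + 1 / 2) - 6 * m ≤ ∑ v ∈ S, dg G Sᶜ v := by linarith
    have h6 : s * (m / 2 - s - 1 / 2) ≤ 2 * m := by
      have h7 : m / 2 - s - 1 / 2 ≤ 1 := by linarith
      have h8 : s ≤ m := by
        have : 0 ≤ q := by positivity
        linarith
      nlinarith
    change s * q - _ ≤ _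
    rw [h3]
    nlinarith
  have hsym : ∑ v ∈ S, dg G Sᶜ v = ∑ v ∈ Sᶜ, dg G S v := by
    have h1 : ∀ (A B : Finset V), ∑ v ∈ A, dg G B v
        = ∑ v ∈ A, ∑ w ∈ B, (if G.Adj v w then (1 : ℝ) else 0) := by
      intro A B
      refine sum_congr rfl fun v _ => ?_
      unfold dg
      rw [inter_comm, ← filter_mem_eq_inter, card_filter]
      push_cast
      refine sum_congr rfl fun w _ => ?_
      simp
    rw [h1, h1, sum_comm]
    refine sum_congr rfl fun v _ => sum_congr rfl fun w _ => ?_
    simp [G.adj_comm]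
  have hmiss2 : ∑ v ∈ Sᶜ, (s - dg G S v) ≤ 8 * m := by
    rw [sum_sub_distrib, sum_const, nsmul_eq_mul, ← hsym]
    rw [sum_sub_distrib, sum_const, nsmul_eq_mul] at hmiss
    change q * s - _ ≤ _
    change s * q - _ ≤ _ at hmiss
    linarith
  have hbadgen : ∀ A B : Finset V, ∑ v ∈ A, ((B.card : ℝ) - dg G B v) ≤ 8 * m →
      ((bad G A B).card : ℝ) ≤ 8000 := by
    intro A B hAB
    have h1 : ∑ v ∈ bad G A B, (m / 1000) ≤ ∑ v ∈ bad G A B, ((B.card : ℝ) - dg G B v) := by
      refine sum_le_sum fun v hv => ?_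
      unfold bad at hv
      exact (mem_filter.1 hv).2
    have h2 : ∑ v ∈ bad G A B, ((B.card : ℝ) - dg G B v) ≤ ∑ v ∈ A, ((B.card : ℝ) - dg G B v) := by
      refine sum_le_sum_of_subset_of_nonneg (by unfold bad; exact filter_subset _ _) ?_
      intro v _ _
      have := dg_le G B v
      linarith
    rw [sum_const, nsmul_eq_mul] at h1
    have h3 : ((bad G A B).card : ℝ) * (m / 1000) ≤ 8 * m := by linarith
    nlinarith
  refine ⟨S, Sᶜ, hdisj, hcov, by linarith, ?_, hbadgen _ _ hmiss, hbadgen _ _ hmiss2⟩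
  linarith

omit [DecidableEq V] in
lemma real_deg (hdeg : ∀ v, Fintype.card V + 1 ≤ 2 * G.degree v) (v : V) :
    (Fintype.card V : ℝ) / 2 + 1 / 2 ≤ (G.degree v : ℝ) := by
  have : ((Fintype.card V + 1 : ℕ) : ℝ) ≤ ((2 * G.degree v : ℕ) : ℝ) := by
    exact_mod_cast hdeg v
  push_cast at this
  linarith

/-- `four_common` in real form. -/
lemma four_common (Q : Finset V) (p q r t : V)
    (h : ((Q \ G.neighborFinset p).card : ℝ) + (Q \ G.neighborFinset q).card
      + (Q \ G.neighborFinset r).card + (Q \ G.neighborFinset t).card + 2 ≤ Q.card) :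
    ∃ x y : V, x ≠ y ∧ G.Adj p x ∧ G.Adj q x ∧ G.Adj r x ∧ G.Adj t x ∧
      G.Adj p y ∧ G.Adj q y ∧ G.Adj r y ∧ G.Adj t y := by
  refine exists_two_common G Q p q r t ?_
  exact_mod_cast h

/-- There are no two disjoint edges inside `few G P`. -/
lemma few_no_matching (hG : ¬ Config G) (hdeg : ∀ v, Fintype.card V + 1 ≤ 2 * G.degree v)
    (hbig : 10 ^ 9 ≤ Fintype.card V) {P Q : Finset V} (h : Split G P Q) {a b c d : V}
    (ha : a ∈ few G P) (hb : b ∈ few G P) (hc : c ∈ few G P) (hd : d ∈ few G P)
    (hab : G.Adj a b) (hcd : G.Adj c d) : a = c ∨ a = d ∨ b = c ∨ b = d := by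
  by_contra hcon
  push Not at hcon
  obtain ⟨h1, h2, h3, h4⟩ := hcon
  have hmbig : (10 : ℝ) ^ 9 ≤ (Fintype.card V : ℝ) := by exact_mod_cast hbig
  have key : ∀ v ∈ few G P, ((Q \ G.neighborFinset v).card : ℝ)
      ≤ 18 + (Fintype.card V : ℝ) / 1000 := by
    intro v hv
    unfold few at hv
    have hv' := (mem_filter.1 hv).2
    rw [card_sdiff_dg]
    have h5 := dg_sum G h.disj h.cov v
    have h6 := real_deg G hdeg v
    have h7 := h.hQ
    linarith
  have hcard := card_split h.disj h.cov
  have hP := h.hP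
  obtain ⟨x, y, hxy, hx1, hx2, hx3, hx4, hy1, hy2, hy3, hy4⟩ := four_common G Q a b c d (by
    have := key a ha
    have := key b hb
    have := key c hc
    have := key d hd
    linarith)
  exact hG ⟨a, b, c, d, x, y, hab, hcd, h1, h2, h3, h4, hxy, hx1, hx2, hx3, hx4, hy1, hy2, hy3,
    hy4⟩

lemma few_inter_card (hbig : 10 ^ 9 ≤ Fintype.card V) {P Q : Finset V} (h : Split G P Q) :
    (((few G P) ∩ Q).card : ℝ) ≤ 8000 := by
  refine le_trans ?_ h.badQ
  have hmbig : (10 : ℝ) ^ 9 ≤ (Fintype.card V : ℝ) := by exact_mod_cast hbig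
  have : few G P ∩ Q ⊆ bad G Q P := by
    intro v hv
    rw [mem_inter] at hv
    unfold few at hv
    unfold bad
    rw [mem_filter]
    have hv' := (mem_filter.1 hv.1).2
    refine ⟨hv.2, ?_⟩
    have hcard := card_split h.disj h.cov
    have hQ := h.hQ
    linarith
  exact_mod_cast card_le_card this

/-- The edges inside `few G P` are few. -/
lemma few_edges (hG : ¬ Config G) (hdeg : ∀ v, Fintype.card V + 1 ≤ 2 * G.degree v)
    (hbig : 10 ^ 9 ≤ Fintype.card V) {P Q : Finset V} (h : Split G P Q) :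
    ∑ v ∈ few G P, dg G (few G P) v ≤ 4 * ((Fintype.card V : ℝ) / 1000 + 8000) := by
  classical
  set X := few G P with hX
  have hmbig : (10 : ℝ) ^ 9 ≤ (Fintype.card V : ℝ) := by exact_mod_cast hbig
  have hdgX : ∀ v ∈ X, dg G X v ≤ (Fintype.card V : ℝ) / 1000 + 8000 := by
    intro v hv
    have h1 : dg G X v ≤ dg G P v + ((X ∩ Q).card : ℝ) := by
      unfold dg
      have : G.neighborFinset v ∩ X ⊆ (G.neighborFinset v ∩ P) ∪ (X ∩ Q) := by
        intro w hw
        rw [mem_inter] at hw
        have hw2 : w ∈ P ∪ Q := by rw [h.cov]; exact mem_univ _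
        rw [mem_union] at hw2
        rcases hw2 with hw2 | hw2
        · exact mem_union_left _ (mem_inter.2 ⟨hw.1, hw2⟩)
        · exact mem_union_right _ (mem_inter.2 ⟨hw.2, hw2⟩)
      have h2 := (card_le_card this).trans (card_union_le _ _)
      exact_mod_cast h2
    have h3 := few_inter_card G hbig h
    rw [hX] at hv
    unfold few at hv
    have hv' := (mem_filter.1 hv).2
    rw [← hX] at h3
    linarith
  by_cases hedge : ∃ a ∈ X, ∃ b ∈ X, G.Adj a b
  · obtain ⟨a, ha, b, hb, hab⟩ := hedge
    -- every adjacent pair meets `{a, b}`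
    have hle : ∀ v ∈ X, dg G X v ≤ (if v = a then dg G X a else 0) + (if v = b then dg G X b else 0)
        + (if G.Adj v a then 1 else 0) + (if G.Adj v b then 1 else 0) := by
      intro v hv
      by_cases hva : v = a
      · subst hva
        have := dg_nonneg G X b
        simp only [if_true]
        split_ifs <;> linarith
      by_cases hvb : v = b
      · subst hvb
        have := dg_nonneg G X a
        simp only [if_true]
        split_ifs <;> linarith
      simp only [hva, hvb, if_false, zero_add]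
      have hsub : G.neighborFinset v ∩ X ⊆ ({a, b} : Finset V).filter (fun w => G.Adj v w) := by
        intro w hw
        rw [mem_inter, SimpleGraph.mem_neighborFinset] at hw
        rw [mem_filter, mem_insert, mem_singleton]
        refine ⟨?_, hw.1⟩
        rcases few_no_matching G hG hdeg hbig h ha hb hv hw.2 hab hw.1 with h1 | h1 | h1 | h1
        · exact absurd h1.symm hva
        · exact Or.inl h1.symm
        · exact absurd h1.symm hvb
        · exact Or.inr h1.symm
      have hc := card_le_card hsub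
      unfold dg
      have h2 : ((({a, b} : Finset V).filter (fun w => G.Adj v w)).card : ℝ)
          = (if G.Adj v a then 1 else 0) + (if G.Adj v b then 1 else 0) := by
        rw [card_filter, sum_pair hab.ne]
        push_cast
        rfl
      rw [← h2]
      exact_mod_cast hc
    have hsum := sum_le_sum hle
    rw [sum_add_distrib, sum_add_distrib, sum_add_distrib, sum_ite_eq' X a, sum_ite_eq' X b,
      if_pos ha, if_pos hb] at hsum
    have hN : ∀ c : V, ∑ v ∈ X, (if G.Adj v c then (1 : ℝ) else 0) = dg G X c := by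
      intro c
      unfold dg
      rw [inter_comm, ← filter_mem_eq_inter, card_filter]
      push_cast
      refine sum_congr rfl fun w _ => ?_
      simp [G.adj_comm]
    rw [hN, hN] at hsum
    have h1 := hdgX a ha
    have h2 := hdgX b hb
    linarith
  · push Not at hedge
    have : ∑ v ∈ X, dg G X v = 0 := by
      refine sum_eq_zero fun v hv => ?_
      unfold dg
      have : G.neighborFinset v ∩ X = ∅ := by
        rw [eq_empty_iff_forall_notMem]
        intro w hw
        rw [mem_inter, SimpleGraph.mem_neighborFinset] at hw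
        exact hedge v hv w hw.2 hw.1
      rw [this]
      simp
    rw [this]
    linarith

/-- Two vertices with many neighbours in `P` have few common neighbours in `Q`. -/
lemma common_few (hG : ¬ Config G)
    (hbig : 10 ^ 9 ≤ Fintype.card V) {P Q : Finset V} (h : Split G P Q) {u v : V} (huv : u ≠ v)
    (hu : (Fintype.card V : ℝ) / 1000 ≤ dg G P u) (hv : (Fintype.card V : ℝ) / 1000 ≤ dg G P v) :
    ((G.neighborFinset u ∩ G.neighborFinset v ∩ Q).card : ℝ)
      ≤ 2 * ((Fintype.card V : ℝ) / 1000) + 2 := by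
  classical
  have hmbig : (10 : ℝ) ^ 9 ≤ (Fintype.card V : ℝ) := by exact_mod_cast hbig
  by_contra hcon
  push Not at hcon
  have hsel : ∀ w z z' : V, (Fintype.card V : ℝ) / 1000 ≤ dg G P w →
      ∃ p : V, G.Adj w p ∧ p ≠ z ∧ p ≠ z' ∧
        ((Q \ G.neighborFinset p).card : ℝ) ≤ (Fintype.card V : ℝ) / 1000 := by
    intro w z z' hw
    by_contra hno
    push Not at hno
    have hsub : G.neighborFinset w ∩ P ⊆ bad G P Q ∪ {z, z'} := by
      intro p hp
      rw [mem_inter, SimpleGraph.mem_neighborFinset] at hp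
      rw [mem_union, mem_insert, mem_singleton]
      by_cases hpz : p = z
      · exact Or.inr (Or.inl hpz)
      by_cases hpz' : p = z'
      · exact Or.inr (Or.inr hpz')
      left
      have h1 := hno p hp.1 hpz hpz'
      rw [card_sdiff_dg] at h1
      unfold bad
      rw [mem_filter]
      exact ⟨hp.2, h1.le⟩
    have h2 := (card_le_card hsub).trans (card_union_le _ _)
    have h3 : ({z, z'} : Finset V).card ≤ 2 := card_le_two
    have h4 : dg G P w ≤ ((bad G P Q).card : ℝ) + 2 := by
      unfold dg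
      have : (G.neighborFinset w ∩ P).card ≤ (bad G P Q).card + 2 := by omega
      exact_mod_cast this
    have h5 := h.badP
    linarith
  obtain ⟨p, hup, hpv, -, hp⟩ := hsel u v v hu
  obtain ⟨p', hvp', hp'u, hp'p, hp'⟩ := hsel v u p hv
  set R := G.neighborFinset u ∩ G.neighborFinset v ∩ Q with hR
  have hRQ : R ⊆ Q := inter_subset_right
  have hRp : ((R \ G.neighborFinset p).card : ℝ) ≤ (Fintype.card V : ℝ) / 1000 := by
    refine le_trans ?_ hp
    exact_mod_cast card_le_card (sdiff_subset_sdiff hRQ (Subset.refl _))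
  have hRp' : ((R \ G.neighborFinset p').card : ℝ) ≤ (Fintype.card V : ℝ) / 1000 := by
    refine le_trans ?_ hp'
    exact_mod_cast card_le_card (sdiff_subset_sdiff hRQ (Subset.refl _))
  have hRu : (R \ G.neighborFinset u).card = 0 := by
    rw [card_eq_zero, sdiff_eq_empty_iff_subset]
    exact inter_subset_left.trans inter_subset_left
  have hRv : (R \ G.neighborFinset v).card = 0 := by
    rw [card_eq_zero, sdiff_eq_empty_iff_subset]
    exact inter_subset_left.trans inter_subset_right
  obtain ⟨x, y, hxy, hx1, hx2, hx3, hx4, hy1, hy2, hy3, hy4⟩ := four_common G R u p v p' (by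
    rw [hRu, hRv]
    push_cast
    linarith)
  exact hG ⟨u, p, v, p', x, y, hup, hvp', huv, Ne.symm hp'u, hpv, Ne.symm hp'p, hxy, hx1, hx2,
    hx3, hx4, hy1, hy2, hy3, hy4⟩

lemma dg_comm (A B : Finset V) : ∑ v ∈ A, dg G B v = ∑ v ∈ B, dg G A v := by
  have h1 : ∀ (A B : Finset V), ∑ v ∈ A, dg G B v
      = ∑ v ∈ A, ∑ w ∈ B, (if G.Adj v w then (1 : ℝ) else 0) := by
    intro A B
    refine sum_congr rfl fun v _ => ?_
    unfold dg
    rw [inter_comm, ← filter_mem_eq_inter, card_filter]
    push_cast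
    refine sum_congr rfl fun w _ => ?_
    simp
  rw [h1, h1, sum_comm]
  refine sum_congr rfl fun v _ => sum_congr rfl fun w _ => ?_
  simp [G.adj_comm]

/-- The main bound. -/
theorem main_bound (hG : ¬ Config G) (hdeg : ∀ v, Fintype.card V + 1 ≤ 2 * G.degree v)
    (hbig : 10 ^ 9 ≤ Fintype.card V) :
    ∑ v : V, (G.degree v : ℝ) ≤ (Fintype.card V : ℝ) ^ 2 / 2 + 1.04 * Fintype.card V := by
  classical
  obtain ⟨P, Q, h⟩ := exists_split G hG hdeg hbig
  have hmbig : (10 : ℝ) ^ 9 ≤ (Fintype.card V : ℝ) := by exact_mod_cast hbig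
  set m : ℝ := (Fintype.card V : ℝ) with hm
  set X := few G P with hX
  set Y := few G Q with hY
  set W : Finset V := univ.filter (fun v => m / 1000 ≤ dg G P v ∧ m / 1000 ≤ dg G Q v) with hW
  have memX : ∀ v, v ∈ X ↔ dg G P v < m / 1000 := by
    intro v
    rw [hX]
    unfold few
    simp [hm]
  have memY : ∀ v, v ∈ Y ↔ dg G Q v < m / 1000 := by
    intro v
    rw [hY]
    unfold few
    simp [hm]
  have memW : ∀ v, v ∈ W ↔ (m / 1000 ≤ dg G P v ∧ m / 1000 ≤ dg G Q v) := by
    intro v
    simp [hW]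
  have hXY : Disjoint X Y := by
    rw [disjoint_left]
    intro v hv hv'
    rw [memX] at hv
    rw [memY] at hv'
    have h1 := dg_sum G h.disj h.cov v
    have h2 := real_deg G hdeg v
    rw [← hm] at h2
    linarith
  have hXYW : Disjoint (X ∪ Y) W := by
    rw [disjoint_left]
    intro v hv hv'
    rw [memW] at hv'
    rw [mem_union, memX, memY] at hv
    rcases hv with hv | hv <;> linarith
  have hcov : (X ∪ Y) ∪ W = univ := by
    rw [eq_univ_iff_forall]
    intro v
    rw [mem_union, mem_union, memX, memY, memW]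
    by_cases h1 : dg G P v < m / 1000
    · exact Or.inl (Or.inl h1)
    by_cases h2 : dg G Q v < m / 1000
    · exact Or.inl (Or.inr h2)
    push Not at h1 h2
    exact Or.inr ⟨h1, h2⟩
  -- common neighbours of two vertices of `W`
  have hcomm : ∀ u ∈ W, ∀ v ∈ W, u ≠ v →
      ((G.neighborFinset u ∩ G.neighborFinset v).card : ℝ) ≤ 4 * (m / 1000) + 4 := by
    intro u hu v hv huv
    rw [memW] at hu hv
    have h1 := common_few G hG hbig h huv hu.1 hv.1
    have h2 := common_few G hG hbig h.symm huv hu.2 hv.2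
    rw [← hm] at h1 h2
    have h3 : (G.neighborFinset u ∩ G.neighborFinset v).card
        ≤ (G.neighborFinset u ∩ G.neighborFinset v ∩ Q).card
          + (G.neighborFinset u ∩ G.neighborFinset v ∩ P).card := by
      rw [← card_union_of_disjoint, ← inter_union_distrib_left, union_comm, h.cov, inter_univ]
      exact Disjoint.mono inter_subset_right inter_subset_right h.disj.symm
    have h4 : ((G.neighborFinset u ∩ G.neighborFinset v).card : ℝ)
        ≤ ((G.neighborFinset u ∩ G.neighborFinset v ∩ Q).card : ℝ)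
          + ((G.neighborFinset u ∩ G.neighborFinset v ∩ P).card : ℝ) := by exact_mod_cast h3
    linarith
  have hun : ∀ A B : Finset V, (A.card : ℝ) + B.card ≤ m + ((A ∩ B).card : ℝ) := by
    intro A B
    have h1 := card_union_add_card_inter A B
    have h2 : (A ∪ B).card ≤ Fintype.card V := card_le_univ _
    have h3 : A.card + B.card ≤ Fintype.card V + (A ∩ B).card := by omega
    rw [hm]
    exact_mod_cast h3
  have hpair : ∀ u ∈ W, ∀ v ∈ W, u ≠ v →
      (G.degree u : ℝ) + G.degree v ≤ m + (4 * (m / 1000) + 4) := by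
    intro u hu v hv huv
    have h1 := hun (G.neighborFinset u) (G.neighborFinset v)
    rw [G.card_neighborFinset_eq_degree, G.card_neighborFinset_eq_degree] at h1
    have h2 := hcomm u hu v hv huv
    linarith
  have hWcard : W.card ≤ 2 := by
    by_contra hcon
    push Not at hcon
    obtain ⟨a, ha, b, hb, c, hc, hab, hac, hbc⟩ := Finset.two_lt_card.1 hcon
    have h1 := card_union_add_card_inter (G.neighborFinset a) (G.neighborFinset b)
    rw [G.card_neighborFinset_eq_degree, G.card_neighborFinset_eq_degree] at h1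
    have h2 := hun (G.neighborFinset a ∪ G.neighborFinset b) (G.neighborFinset c)
    rw [G.card_neighborFinset_eq_degree] at h2
    have h3 : ((G.neighborFinset a ∪ G.neighborFinset b) ∩ G.neighborFinset c).card
        ≤ (G.neighborFinset a ∩ G.neighborFinset c).card
          + (G.neighborFinset b ∩ G.neighborFinset c).card := by
      rw [union_inter_distrib_right]; exact card_union_le _ _
    have h1' : (((G.neighborFinset a ∪ G.neighborFinset b).card : ℝ)
        + ((G.neighborFinset a ∩ G.neighborFinset b).card : ℝ))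
        = G.degree a + G.degree b := by exact_mod_cast h1
    have h3' : (((G.neighborFinset a ∪ G.neighborFinset b) ∩ G.neighborFinset c).card : ℝ)
        ≤ ((G.neighborFinset a ∩ G.neighborFinset c).card : ℝ)
          + ((G.neighborFinset b ∩ G.neighborFinset c).card : ℝ) := by exact_mod_cast h3
    have h4 := hcomm a ha b hb hab
    have h5 := hcomm a ha c hc hac
    have h6 := hcomm b hb c hc hbc
    have h7 := real_deg G hdeg a
    have h8 := real_deg G hdeg b
    have h9 := real_deg G hdeg c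
    rw [← hm] at h7 h8 h9
    linarith
  have hdegsum : ∀ v, (G.degree v : ℝ) = dg G X v + dg G Y v + dg G W v := by
    intro v
    rw [← dg_sum G hXYW hcov v]
    congr 1
    unfold dg
    rw [← Nat.cast_add, ← card_union_of_disjoint, ← inter_union_distrib_left]
    exact Disjoint.mono inter_subset_right inter_subset_right hXY
  have hsplit : ∑ v : V, (G.degree v : ℝ) = ∑ v ∈ X, (G.degree v : ℝ) + ∑ v ∈ Y, (G.degree v : ℝ)
      + ∑ v ∈ W, (G.degree v : ℝ) := by
    rw [← hcov, sum_union hXYW, sum_union hXY]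
  have hsX : ∑ v ∈ X, (G.degree v : ℝ) = ∑ v ∈ X, dg G X v + ∑ v ∈ X, dg G Y v
      + ∑ v ∈ X, dg G W v := by
    rw [← sum_add_distrib, ← sum_add_distrib]
    exact sum_congr rfl fun v _ => hdegsum v
  have hsY : ∑ v ∈ Y, (G.degree v : ℝ) = ∑ v ∈ Y, dg G X v + ∑ v ∈ Y, dg G Y v
      + ∑ v ∈ Y, dg G W v := by
    rw [← sum_add_distrib, ← sum_add_distrib]
    exact sum_congr rfl fun v _ => hdegsum v
  have hXX := few_edges G hG hdeg hbig h
  have hYY := few_edges G hG hdeg hbig h.symm
  rw [← hX, ← hm] at hXX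
  rw [← hY, ← hm] at hYY
  have hXYe : ∑ v ∈ X, dg G Y v ≤ (X.card : ℝ) * Y.card := by
    calc ∑ v ∈ X, dg G Y v ≤ ∑ v ∈ X, (Y.card : ℝ) := sum_le_sum fun v _ => dg_le G _ v
      _ = (X.card : ℝ) * Y.card := by rw [sum_const, nsmul_eq_mul]
  have hYXe : ∑ v ∈ Y, dg G X v ≤ (X.card : ℝ) * Y.card := by
    rw [dg_comm]; exact hXYe
  have hWW : ∑ v ∈ X, dg G W v + ∑ v ∈ Y, dg G W v ≤ ∑ v ∈ W, (G.degree v : ℝ) := by
    rw [dg_comm G X W, dg_comm G Y W, ← sum_add_distrib]
    refine sum_le_sum fun v _ => ?_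
    rw [hdegsum v]
    have := dg_nonneg G W v
    linarith
  have hcards : (X.card : ℝ) + Y.card + W.card = m := by
    have h1 := card_split hXYW hcov
    rw [card_union_of_disjoint hXY] at h1
    push_cast at h1
    linarith
  have hdegle : ∀ v, (G.degree v : ℝ) ≤ m := by
    intro v
    rw [hm]
    exact_mod_cast (G.degree_lt_card_verts v).le
  rw [hsplit, hsX, hsY]
  set x : ℝ := (X.card : ℝ)
  set y : ℝ := (Y.card : ℝ)
  have hx0 : 0 ≤ x := by positivity
  have hy0 : 0 ≤ y := by positivity
  have hxy : 4 * (x * y) ≤ (x + y) ^ 2 := by nlinarith [sq_nonneg (x - y)]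
  interval_cases hk : W.card
  · have hW0 : W = ∅ := card_eq_zero.1 hk
    rw [hW0, sum_empty] at hWW
    rw [hW0, sum_empty]
    have : x + y = m := by simpa using hcards
    rw [this] at hxy
    linarith
  · obtain ⟨w, hw⟩ := card_eq_one.1 hk
    have hS : ∑ v ∈ W, (G.degree v : ℝ) ≤ m := by rw [hw, sum_singleton]; exact hdegle w
    have : x + y = m - 1 := by
      push_cast at hcards
      linarith
    rw [this] at hxy
    nlinarith
  · obtain ⟨u, v, huv, hw⟩ := card_eq_two.1 hk
    have hS : ∑ v ∈ W, (G.degree v : ℝ) ≤ m + (4 * (m / 1000) + 4) := by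
      rw [hw, sum_pair huv]
      exact hpair u (by rw [hw]; simp) v (by rw [hw]; simp) huv
    have : x + y = m - 2 := by
      push_cast at hcards
      linarith
    rw [this] at hxy
    nlinarith

end

end Pool.Agent.Helper47_Orient
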