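import Pool.Agent.Helper47_Orient.Defs
import Pool.Agent.Helper47_Orient.Extremal

/-!
# The six-vertex oriented graph and its decomposition family
-/

namespace Pool.Agent.Helper47_Orient

open SimpleGraph

/-- The arcs of the oriented graph: two disjoint edges `0 → 1`, `2 → 3`, joined to two
non-adjacent vertices `4`, `5` along the cyclic pattern `{0,1} → 4 → {2,3} → 5 → {0,1}`. -/
def arc (u v : Fin 6) : Prop :=
  (u, v) ∈ ([(0, 1), (2, 3), (0, 4), (1, 4), (4, 2), (4, 3), (2, 5), (3, 5), (5, 0), (5, 1)] :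
    List (Fin 6 × Fin 6))

instance : DecidableRel arc := fun u v => by unfold arc; infer_instance

/-- The underlying graph. -/
def gr : SimpleGraph (Fin 6) where
  Adj u v := arc u v ∨ arc v u
  symm := ⟨fun _ _ h => h.symm⟩
  loopless := ⟨by decide⟩

instance : DecidableRel gr.Adj := fun u v => by unfold gr; infer_instance

lemma arc_isOrientation : IsOrientation gr arc := by
  refine ⟨fun u v => Iff.rfl, ?_⟩
  decide

lemma gr_contained_of_config {V : Type} {G : SimpleGraph V} (h : Config G) : gr ⊑ G := by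
  obtain ⟨a, b, c, d, x, y, h1, h2, h3, h4, h5, h6, h7, hax, hbx, hcx, hdx, hay, hby, hcy, hdy⟩ := h
  refine ⟨⟨⟨![a, b, c, d, x, y], ?_⟩, ?_⟩⟩
  · intro u v huv
    fin_cases u <;> fin_cases v <;>
      first
        | (exact absurd huv (by decide))
        | (simp; first | assumption | (apply SimpleGraph.Adj.symm; assumption))
  · have e1 := h1.ne
    have e2 := h2.ne
    have e3 := hax.ne
    have e4 := hbx.ne
    have e5 := hcx.ne
    have e6 := hdx.ne
    have e7 := hay.ne
    have e8 := hby.ne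
    have e9 := hcy.ne
    have e10 := hdy.ne
    intro u v huv
    fin_cases u <;> fin_cases v <;> simp_all [eq_comm]

/-- Two disjoint edges. -/
def TwoEdges {V : Type} (M : SimpleGraph V) : Prop :=
  ∃ a b c d : V, M.Adj a b ∧ M.Adj c d ∧ a ≠ c ∧ a ≠ d ∧ b ≠ c ∧ b ≠ d

lemma gr_contained_host {V : Type} {M : SimpleGraph V} (h : TwoEdges M) : gr ⊑ host M 1 2 := by
  obtain ⟨a, b, c, d, h1, h2, h3, h4, h5, h6⟩ := h
  apply gr_contained_of_config
  refine ⟨.inl (.inl a), .inl (.inl b), .inl (.inl c), .inl (.inl d), .inr (0, 0), .inr (0, 1),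
    h1, h2, ?_, ?_, ?_, ?_, ?_, trivial, trivial, trivial, trivial, trivial, trivial, trivial,
    trivial⟩
  · simpa using h3
  · simpa using h4
  · simpa using h5
  · simpa using h6
  · simp

lemma host_inl_of_adj_inr {V : Type} {M : SimpleGraph V} {t : ℕ}
    {u : (V ⊕ Fin t) ⊕ (Fin 1 × Fin t)} {x : Fin 1 × Fin t} (h : (host M 1 t).Adj u (.inr x)) :
    ∃ v, u = .inl v := by
  rcases u with u | u
  · exact ⟨u, rfl⟩
  · exact absurd (Subsingleton.elim u.1 x.1) h

lemma host_inl_inl {V : Type} {M : SimpleGraph V} {t : ℕ} {u v : V ⊕ Fin t}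
    (h : (host M 1 t).Adj (.inl u) (.inl v)) :
    ∃ a b, u = .inl a ∧ v = .inl b ∧ M.Adj a b := by
  rcases u with u | u <;> rcases v with v | v
  · exact ⟨u, v, rfl, rfl, h⟩
  · exact h.elim
  · exact h.elim
  · exact h.elim

lemma twoEdges_of_host {V : Type} {M : SimpleGraph V} {t : ℕ} (h : gr ⊑ host M 1 t) :
    TwoEdges M := by
  obtain ⟨⟨f, hf⟩⟩ := h
  have hinj : ∀ i j : Fin 6, f i = f j → i = j := fun i j h => hf h
  have hadj : ∀ i j : Fin 6, gr.Adj i j → (host M 1 t).Adj (f i) (f j) := fun i j h => f.map_adj h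
  -- the pair of edges `p q`, `r s`
  have fin : ∀ p q r s : Fin 6, gr.Adj p q → gr.Adj r s → p ≠ r → p ≠ s → q ≠ r → q ≠ s →
      (∃ a, f p = .inl a) → (∃ a, f q = .inl a) → (∃ a, f r = .inl a) → (∃ a, f s = .inl a) →
      TwoEdges M := by
    rintro p q r s hpq hrs h1 h2 h3 h4 ⟨a, ha⟩ ⟨b, hb⟩ ⟨c, hc⟩ ⟨d, hd⟩
    have h5 := hadj p q hpq
    have h6 := hadj r s hrs
    rw [ha, hb] at h5
    rw [hc, hd] at h6
    obtain ⟨a', b', rfl, rfl, h7⟩ := host_inl_inl h5
    obtain ⟨c', d', rfl, rfl, h8⟩ := host_inl_inl h6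
    refine ⟨a', b', c', d', h7, h8, ?_, ?_, ?_, ?_⟩
    · rintro rfl; exact h1 (hinj _ _ (ha.trans hc.symm))
    · rintro rfl; exact h2 (hinj _ _ (ha.trans hd.symm))
    · rintro rfl; exact h3 (hinj _ _ (hb.trans hc.symm))
    · rintro rfl; exact h4 (hinj _ _ (hb.trans hd.symm))
  have hr : ∀ i j : Fin 6, gr.Adj i j → ∀ x, f j = .inr x → ∃ a, f i = .inl a := by
    intro i j hij x hx
    have h1 := hadj i j hij
    rw [hx] at h1
    exact host_inl_of_adj_inr h1
  rcases h4 : f 4 with z4 | z4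
  · rcases h5 : f 5 with z5 | z5
    · -- both are on the left
      have hu : (∃ a, f 0 = .inl a) ∨ (∃ a, f 1 = .inl a) := by
        rcases h0 : f 0 with z | z
        · exact Or.inl ⟨z, rfl⟩
        · exact Or.inr (hr 1 0 (by decide) z h0)
      have hv : (∃ a, f 2 = .inl a) ∨ (∃ a, f 3 = .inl a) := by
        rcases h0 : f 2 with z | z
        · exact Or.inl ⟨z, rfl⟩
        · exact Or.inr (hr 3 2 (by decide) z h0)
      rcases hu with hu | hu <;> rcases hv with hv | hv
      · exact fin 0 4 2 5 (by decide) (by decide) (by decide) (by decide) (by decide) (by decide)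
          hu ⟨z4, h4⟩ hv ⟨z5, h5⟩
      · exact fin 0 4 3 5 (by decide) (by decide) (by decide) (by decide) (by decide) (by decide)
          hu ⟨z4, h4⟩ hv ⟨z5, h5⟩
      · exact fin 1 4 2 5 (by decide) (by decide) (by decide) (by decide) (by decide) (by decide)
          hu ⟨z4, h4⟩ hv ⟨z5, h5⟩
      · exact fin 1 4 3 5 (by decide) (by decide) (by decide) (by decide) (by decide) (by decide)
          hu ⟨z4, h4⟩ hv ⟨z5, h5⟩
    · exact fin 0 1 2 3 (by decide) (by decide) (by decide) (by decide) (by decide) (by decide)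
        (hr 0 5 (by decide) z5 h5) (hr 1 5 (by decide) z5 h5) (hr 2 5 (by decide) z5 h5)
        (hr 3 5 (by decide) z5 h5)
  · exact fin 0 1 2 3 (by decide) (by decide) (by decide) (by decide) (by decide) (by decide)
      (hr 0 4 (by decide) z4 h4) (hr 1 4 (by decide) z4 h4) (hr 2 4 (by decide) z4 h4)
      (hr 3 4 (by decide) z4 h4)

lemma gr_chromatic : gr.chromaticNumber = (2 + 1 : ℕ) := by
  have h3 : gr.Colorable 3 := by
    refine ⟨SimpleGraph.Coloring.mk (fun i => (![0, 1, 0, 1, 2, 2] : Fin 6 → Fin 3) i) ?_⟩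
    intro u v
    revert u v
    decide
  have h2 : ¬ gr.Colorable 2 := by
    rintro ⟨C⟩
    have h01 := C.valid (show gr.Adj 0 1 by decide)
    have h04 := C.valid (show gr.Adj 0 4 by decide)
    have h14 := C.valid (show gr.Adj 1 4 by decide)
    have : ∀ x y z : Fin 2, x ≠ y → x ≠ z → y ≠ z → False := by decide
    exact this _ _ _ h01 h04 h14
  have h4 : gr.chromaticNumber ≤ (3 : ℕ) := h3.chromaticNumber_le
  have h5 : (3 : ℕ) ≤ gr.chromaticNumber := by
    by_contra hcon
    push Not at hcon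
    have h6 : gr.chromaticNumber ≤ (2 : ℕ) := by
      obtain ⟨k, hk⟩ : ∃ k : ℕ, gr.chromaticNumber = k :=
        ENat.ne_top_iff_exists.1 (ne_top_of_lt hcon) |>.imp fun _ h => h.symm
      rw [hk] at hcon ⊢
      have : k < 3 := by exact_mod_cast hcon
      exact_mod_cast (by omega : k ≤ 2)
    exact h2 (SimpleGraph.chromaticNumber_le_iff_colorable.1 h6)
  exact le_antisymm h4 h5

lemma p_eq_two {p : ℕ} (h : gr.chromaticNumber = (p + 1 : ℕ)) : p = 2 := by
  rw [gr_chromatic] at h
  have : 2 + 1 = p + 1 := by exact_mod_cast h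
  omega

/-- A member of the decomposition family consists of exactly two disjoint edges. -/
lemma inFamily_structure {V : Type} {M : SimpleGraph V} (h : InFamily gr M) :
    ∃ a b c d : V, M.Adj a b ∧ M.Adj c d ∧ a ≠ c ∧ a ≠ d ∧ b ≠ c ∧ b ≠ d ∧
      (∀ v, v = a ∨ v = b ∨ v = c ∨ v = d) := by
  obtain ⟨p, -, hp, ⟨t, -, ht⟩, hmin⟩ := h
  obtain rfl := p_eq_two hp
  obtain ⟨a, b, c, d, hab, hcd, h3, h4, h5, h6⟩ := twoEdges_of_host (t := t) ht
  refine ⟨a, b, c, d, hab, hcd, h3, h4, h5, h6, ?_⟩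
  by_contra hcon
  push Not at hcon
  obtain ⟨v, hva, hvb, hvc, hvd⟩ := hcon
  let M' : M.Subgraph := M.subgraphOfAdj hab ⊔ M.subgraphOfAdj hcd
  have hM' : M' ≠ ⊤ := by
    intro htop
    have : v ∈ M'.verts := by rw [htop]; trivial
    simp [M', hva, hvb, hvc, hvd] at this
  refine hmin M' hM' ⟨2, by norm_num, ?_⟩
  refine gr_contained_host ?_
  have ha : a ∈ M'.verts := by simp [M']
  have hb : b ∈ M'.verts := by simp [M']
  have hc : c ∈ M'.verts := by simp [M']
  have hd : d ∈ M'.verts := by simp [M']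
  refine ⟨⟨a, ha⟩, ⟨b, hb⟩, ⟨c, hc⟩, ⟨d, hd⟩, ?_, ?_, ?_, ?_, ?_, ?_⟩
  · simp [M']
  · simp [M']
  · simpa using h3
  · simpa using h4
  · simpa using h5
  · simpa using h6

/-- The orientation of the host graph. -/
def hostOr {V : Type} (D : V → V → Prop) (S : V → Prop) :
    ((V ⊕ Fin 2) ⊕ (Fin 1 × Fin 2)) → ((V ⊕ Fin 2) ⊕ (Fin 1 × Fin 2)) → Prop
  | .inl (.inl u), .inl (.inl v) => D u v
  | .inl (.inl u), .inr x => (S u ↔ x.2 = 0)
  | .inr x, .inl (.inl u) => ¬ (S u ↔ x.2 = 0)
  | .inl (.inr _), .inr _ => True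
  | _, _ => False

lemma fullFamily_gr : FullFamily gr arc := by
  intro V _ M D hM hD
  refine ⟨hM, hD, 2, by norm_num, gr_chromatic, 2, by norm_num, ?_⟩
  obtain ⟨a, b, c, d, hab, hcd, h3, h4, h5, h6, hcov⟩ := inFamily_structure hM
  obtain ⟨a, b, c, d, hab, hcd, h3, h4, h5, h6, hcov⟩ :
      ∃ a b c d : V, D a b ∧ D c d ∧ a ≠ c ∧ a ≠ d ∧ b ≠ c ∧ b ≠ d ∧
        (∀ v, v = a ∨ v = b ∨ v = c ∨ v = d) := by
    rcases (hD.1 a b).1 hab with h1 | h1 <;> rcases (hD.1 c d).1 hcd with h2 | h2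
    · exact ⟨a, b, c, d, h1, h2, h3, h4, h5, h6, hcov⟩
    · exact ⟨a, b, d, c, h1, h2, h4, h3, h6, h5, fun v => by rcases hcov v with h | h | h | h <;>
        simp [h]⟩
    · exact ⟨b, a, c, d, h1, h2, h5, h6, h3, h4, fun v => by rcases hcov v with h | h | h | h <;>
        simp [h]⟩
    · exact ⟨b, a, d, c, h1, h2, h6, h5, h4, h3, fun v => by rcases hcov v with h | h | h | h <;>
        simp [h]⟩
  refine ⟨hostOr D (fun u => u = a ∨ u = b), ⟨?_, ?_⟩, ?_, ?_⟩
  · rintro ((u | i) | x) ((v | j) | y)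
    · exact hD.1 u v
    · simp [host, hostOr]
    · simp only [host, hostOr]
      tauto
    · simp [host, hostOr]
    · simp [host, hostOr]
    · simp [host, hostOr]
    · simp only [host, hostOr]
      tauto
    · simp [host, hostOr]
    · have : x.1 = y.1 := Subsingleton.elim (α := Fin 1) _ _
      simp [host, hostOr, this]
  · rintro ((u | i) | x) ((v | j) | y) h
    · exact hD.2 u v h
    · exact h.elim
    · simp only [hostOr] at h ⊢
      tauto
    · exact h.elim
    · exact h.elim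
    · simp [hostOr]
    · simp only [hostOr] at h ⊢
      tauto
    · exact h.elim
    · exact h.elim
  · refine ⟨![.inl (.inl a), .inl (.inl b), .inl (.inl c), .inl (.inl d), .inr (0, 0),
      .inr (0, 1)], ?_, ?_⟩
    · have e1 : a ≠ b := by
        rintro rfl
        exact hD.2 _ _ hab hab
      have e2 : c ≠ d := by
        rintro rfl
        exact hD.2 _ _ hcd hcd
      intro u v huv
      fin_cases u <;> fin_cases v <;> simp_all [eq_comm]
    · intro u v huv
      fin_cases u <;> fin_cases v <;>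
      first
        | (exact absurd huv (by decide))
        | (simp [hostOr]; done)
        | (simp [hostOr]; tauto)
  · exact ⟨Equiv.refl V, fun u v => Iff.rfl⟩

end Pool.Agent.Helper47_Orient
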