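import Pool.Agent.Helper47_Orient.Defs
import Pool.Agent.Helper47_Orient.Family

/-!
# Many orientations without the six-vertex oriented graph
-/

namespace Pool.Agent.Helper47_Orient

open SimpleGraph

/-- Vertices: two special vertices and two classes of sizes `a` and `b`. -/
abbrev Vert (a b : ℕ) : Type := Fin 2 ⊕ (Fin a ⊕ Fin b)

/-- Two non-adjacent vertices joined to a complete bipartite graph. -/
def comp (a b : ℕ) : SimpleGraph (Vert a b) where
  Adj
    | .inl _, .inl _ => False
    | .inl _, .inr _ => True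
    | .inr _, .inl _ => True
    | .inr (.inl _), .inr (.inr _) => True
    | .inr (.inr _), .inr (.inl _) => True
    | .inr (.inl _), .inr (.inl _) => False
    | .inr (.inr _), .inr (.inr _) => False
  symm := ⟨by
    rintro (u | u | u) (v | v | v) h <;> trivial⟩
  loopless := ⟨by
    rintro (u | u | u) h <;> exact h⟩

/-- Whether pattern `k` directs the edge from the special vertex `w` towards the vertex.
The pattern (from `0`, to `1`) never occurs. -/
def pat (k : Fin 3) (w : Fin 2) : Bool := k = 0 ∨ (k = 2 ∧ w = 1)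

/-- The orientation given by the patterns `g` and the choices `h`. -/
def ori {a b : ℕ} (g : Fin a ⊕ Fin b → Fin 3) (h : Fin a → Fin b → Bool) :
    Vert a b → Vert a b → Prop
  | .inl w, .inr z => pat (g z) w = true
  | .inr z, .inl w => pat (g z) w = false
  | .inr (.inl i), .inr (.inr j) => h i j = true
  | .inr (.inr j), .inr (.inl i) => h i j = false
  | _, _ => False

lemma ori_isOrientation {a b : ℕ} (g : Fin a ⊕ Fin b → Fin 3) (h : Fin a → Fin b → Bool) :
    IsOrientation (comp a b) (ori g h) := by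
  constructor
  · rintro (u | u | u) (v | v | v) <;> simp [comp, ori]
  · rintro (u | u | u) (v | v | v) <;> simp [ori]

/-- The class of a vertex. -/
def cls {a b : ℕ} : Vert a b → Fin 4
  | .inl w => if w = 0 then 0 else 1
  | .inr (.inl _) => 2
  | .inr (.inr _) => 3

lemma cls_arc {a b : ℕ} (g : Fin a ⊕ Fin b → Fin 3) (h : Fin a → Fin b → Bool)
    (u v : Vert a b) (huv : ori g h u v) :
    ¬ (cls u < 2 ∧ cls v < 2) ∧ ¬ (cls u = 2 ∧ cls v = 2) ∧ ¬ (cls u = 3 ∧ cls v = 3) := by
  rcases u with u | u | u <;> rcases v with v | v | v <;> simp_all [ori, cls]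
  · fin_cases u <;> simp
  · fin_cases u <;> simp
  · fin_cases v <;> simp
  · fin_cases v <;> simp

lemma cls_path {a b : ℕ} (g : Fin a ⊕ Fin b → Fin 3) (h : Fin a → Fin b → Bool)
    (u z v : Vert a b) (huz : ori g h u z) (hzv : ori g h z v) :
    ¬ (cls u = 0 ∧ cls v = 1) := by
  have key : ∀ k : Fin 3, ¬ (pat k 0 = true ∧ pat k 1 = false) := by decide
  rintro ⟨h1, h2⟩
  rcases u with u | u | u
  · rcases v with v | v | v
    · have hu : u = 0 := by
        by_contra h3
        simp [cls, h3] at h1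
      have hv : v = 1 := by
        fin_cases v
        · simp [cls] at h2
        · rfl
      subst hu hv
      rcases z with z | z
      · exact huz
      · exact key (g z) ⟨huz, hzv⟩
    · simp [cls] at h2
    · simp [cls] at h2
  · simp [cls] at h1
  · simp [cls] at h1

lemma cls_inj {a b : ℕ} (u v : Vert a b) (h : cls u = cls v) (hu : cls u < 2) : u = v := by
  rcases u with u | u | u
  · rcases v with v | v | v
    · fin_cases u <;> fin_cases v <;> simp_all [cls]
    · fin_cases u <;> simp [cls] at h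
    · fin_cases u <;> simp [cls] at h
  · simp [cls] at hu
  · simp [cls] at hu

/-- The finite check. -/
lemma finite_check (c : Fin 6 → Fin 4)
    (h1 : ∀ u v, arc u v →
      ¬ (c u < 2 ∧ c v < 2) ∧ ¬ (c u = 2 ∧ c v = 2) ∧ ¬ (c u = 3 ∧ c v = 3))
    (h2 : ∀ u z v, arc u z → arc z v → ¬ (c u = 0 ∧ c v = 1))
    (h3 : ∀ u v, c u = c v → c u < 2 → u = v) : False := by
  -- each triangle contains a vertex of class `< 2`
  have tri : ∀ x y z : Fin 4, ¬ (x = 2 ∧ y = 2) → ¬ (x = 3 ∧ y = 3) → ¬ (x = 2 ∧ z = 2) →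
      ¬ (x = 3 ∧ z = 3) → ¬ (y = 2 ∧ z = 2) → ¬ (y = 3 ∧ z = 3) → x < 2 ∨ y < 2 ∨ z < 2 := by
    have ge : ∀ x : Fin 4, x < 2 ∨ x = 2 ∨ x = 3 := by decide
    intro x y z h1 h2 h3 h4 h5 h6
    rcases ge x with h | h | h
    · exact Or.inl h
    · rcases ge y with h' | h' | h'
      · exact Or.inr (Or.inl h')
      · exact absurd ⟨h, h'⟩ h1
      · rcases ge z with h'' | h'' | h''
        · exact Or.inr (Or.inr h'')
        · exact absurd ⟨h, h''⟩ h3
        · exact absurd ⟨h', h''⟩ h6
    · rcases ge y with h' | h' | h'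
      · exact Or.inr (Or.inl h')
      · rcases ge z with h'' | h'' | h''
        · exact Or.inr (Or.inr h'')
        · exact absurd ⟨h', h''⟩ h5
        · exact absurd ⟨h, h''⟩ h4
      · exact absurd ⟨h, h'⟩ h2
  have small : ∀ x : Fin 4, x < 2 → x = 0 ∨ x = 1 := by decide
  have a01 := h1 0 1 (by decide)
  have a23 := h1 2 3 (by decide)
  have a04 := h1 0 4 (by decide)
  have a14 := h1 1 4 (by decide)
  have a42 := h1 4 2 (by decide)
  have a43 := h1 4 3 (by decide)
  have a25 := h1 2 5 (by decide)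
  have a35 := h1 3 5 (by decide)
  have a50 := h1 5 0 (by decide)
  have a51 := h1 5 1 (by decide)
  have t1 := tri (c 0) (c 1) (c 4) a01.2.1 a01.2.2 a04.2.1 a04.2.2 a14.2.1 a14.2.2
  have t2 := tri (c 2) (c 3) (c 4) a23.2.1 a23.2.2 (fun h => a42.2.1 h.symm)
    (fun h => a42.2.2 h.symm) (fun h => a43.2.1 h.symm) (fun h => a43.2.2 h.symm)
  have t3 := tri (c 0) (c 1) (c 5) a01.2.1 a01.2.2 (fun h => a50.2.1 h.symm)
    (fun h => a50.2.2 h.symm) (fun h => a51.2.1 h.symm) (fun h => a51.2.2 h.symm)
  -- two classes for two vertices `p`, `q`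
  have two : ∀ p q : Fin 6, p ≠ q → c p < 2 → c q < 2 → (c p = 0 ∧ c q = 1) ∨ (c q = 0 ∧ c p = 1) := by
    intro p q hpq hp hq
    rcases small _ hp with h | h <;> rcases small _ hq with h' | h'
    · exact absurd (h3 p q (h.trans h'.symm) hp) hpq
    · exact Or.inl ⟨h, h'⟩
    · exact Or.inr ⟨h', h⟩
    · exact absurd (h3 p q (h.trans h'.symm) hp) hpq
  -- paths in both directions
  have done : ∀ p q : Fin 6, p ≠ q → c p < 2 → c q < 2 → (∃ z, arc p z ∧ arc z q) →
      (∃ z, arc q z ∧ arc z p) → False := by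
    rintro p q hpq hp hq ⟨z, hz1, hz2⟩ ⟨w, hw1, hw2⟩
    rcases two p q hpq hp hq with h | h
    · exact h2 p z q hz1 hz2 h
    · exact h2 q w p hw1 hw2 h
  by_cases h4 : c 4 < 2
  · by_cases h5 : c 5 < 2
    · exact done 4 5 (by decide) h4 h5 (by decide) (by decide)
    · rcases t3 with h0 | h0 | h0
      · exact a04.1 ⟨h0, h4⟩
      · exact a14.1 ⟨h0, h4⟩
      · exact h5 h0
  · rcases t1 with h0 | h0 | h0
    · rcases t2 with h6 | h6 | h6
      · exact done 0 2 (by decide) h0 h6 (by decide) (by decide)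
      · exact done 0 3 (by decide) h0 h6 (by decide) (by decide)
      · exact h4 h6
    · rcases t2 with h6 | h6 | h6
      · exact done 1 2 (by decide) h0 h6 (by decide) (by decide)
      · exact done 1 3 (by decide) h0 h6 (by decide) (by decide)
      · exact h4 h6
    · exact h4 h0

lemma ori_free {a b : ℕ} (g : Fin a ⊕ Fin b → Fin 3) (h : Fin a → Fin b → Bool) :
    ¬ HasCopy arc (ori g h) := by
  rintro ⟨f, hf, harc⟩
  refine finite_check (fun i => cls (f i)) ?_ ?_ ?_
  · intro u v huv
    exact cls_arc g h _ _ (harc u v huv)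
  · intro u z v huz hzv
    exact cls_path g h _ _ _ (harc u z huz) (harc z v hzv)
  · intro u v huv hu
    exact hf (cls_inj _ _ huv hu)

lemma ori_injective {a b : ℕ} (g g' : Fin a ⊕ Fin b → Fin 3) (h h' : Fin a → Fin b → Bool)
    (he : ori g h = ori g' h') : g = g' ∧ h = h' := by
  have key : ∀ k k' : Fin 3, (∀ w, (pat k w = true ↔ pat k' w = true)) → k = k' := by decide
  constructor
  · funext z
    refine key _ _ fun w => ?_
    have : ori g h (.inl w) (.inr z) = ori g' h' (.inl w) (.inr z) := by rw [he]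
    simpa [ori] using this
  · funext i j
    have : ori g h (.inr (.inl i)) (.inr (.inr j)) = ori g' h' (.inr (.inl i)) (.inr (.inr j)) := by
      rw [he]
    have h2 : (h i j = true) = (h' i j = true) := this
    cases h3 : h i j <;> cases h4 : h' i j <;> simp_all

lemma numFree_comp (a b : ℕ) : 3 ^ (a + b) * 2 ^ (a * b) ≤ numFree (comp a b) arc := by
  let F : (Fin a ⊕ Fin b → Fin 3) × (Fin a → Fin b → Bool) →
      {D : Vert a b → Vert a b → Prop // IsOrientation (comp a b) D ∧ ¬ HasCopy arc D} :=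
    fun x => ⟨ori x.1 x.2, ori_isOrientation x.1 x.2, ori_free x.1 x.2⟩
  have hF : Function.Injective F := by
    intro x y hxy
    have h1 : ori x.1 x.2 = ori y.1 y.2 := congrArg Subtype.val hxy
    obtain ⟨h2, h3⟩ := ori_injective _ _ _ _ h1
    exact Prod.ext h2 h3
  have hcard := Nat.card_le_card_of_injective F hF
  have h1 : Nat.card ((Fin a ⊕ Fin b → Fin 3) × (Fin a → Fin b → Bool))
      = 3 ^ (a + b) * 2 ^ (a * b) := by
    rw [Nat.card_eq_fintype_card]
    simp [pow_mul, mul_comm a b]
  rw [h1] at hcard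
  exact hcard

/-- Transport to another vertex set. -/
lemma numFree_transport {V V' W : Type} [Finite V'] (e : V ≃ V') (G : SimpleGraph V)
    (A : W → W → Prop) : numFree G A ≤ numFree (G.comap e.symm) A := by
  have : Finite V := Finite.of_equiv V' e.symm
  let F : {D : V → V → Prop // IsOrientation G D ∧ ¬ HasCopy A D} →
      {D : V' → V' → Prop // IsOrientation (G.comap e.symm) D ∧ ¬ HasCopy A D} :=
    fun x => ⟨fun u v => x.1 (e.symm u) (e.symm v), ⟨⟨fun u v => x.2.1.1 _ _, fun u v => x.2.1.2 _ _⟩,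
      by
        rintro ⟨f, hf, hA⟩
        exact x.2.2 ⟨fun w => e.symm (f w), e.symm.injective.comp hf, hA⟩⟩⟩
  refine Nat.card_le_card_of_injective F ?_
  intro x y hxy
  have h1 : (fun u v => x.1 (e.symm u) (e.symm v)) = (fun u v => y.1 (e.symm u) (e.symm v)) :=
    congrArg Subtype.val hxy
  apply Subtype.ext
  funext u v
  have := congrFun (congrFun h1 (e u)) (e v)
  simpa using this

lemma numFree_le_maxFree {W : Type} (n : ℕ) (G : SimpleGraph (Fin n)) (A : W → W → Prop) :
    numFree G A ≤ maxFree n A :=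
  le_ciSup (f := fun G : SimpleGraph (Fin n) => numFree G A) (Set.finite_range _).bddAbove G

lemma maxFree_lower (n a b : ℕ) (h : 2 + (a + b) = n) :
    3 ^ (a + b) * 2 ^ (a * b) ≤ maxFree n arc := by
  have e : Vert a b ≃ Fin n := Fintype.equivFinOfCardEq (by simp [Vert, ← h])
  exact (numFree_comp a b).trans ((numFree_transport e _ _).trans (numFree_le_maxFree n _ _))

end Pool.Agent.Helper47_Orient
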