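import Mathlib

/-!
# Counting orientations without a fixed directed graph: definitions
-/

namespace Pool.Agent.Helper47_Orient

open SimpleGraph

/-- The relation `D` (read `D u v` as an arc from `u` to `v`) is an orientation of the simple
graph `G`: every edge of `G` carries an arc in exactly one direction, and there are no other
arcs. -/
def IsOrientation {V : Type} (G : SimpleGraph V) (D : V → V → Prop) : Prop :=
  (∀ u v, G.Adj u v ↔ (D u v ∨ D v u)) ∧ ∀ u v, D u v → ¬ D v u

/-- The directed graph `D` contains a copy of the directed graph `A` as a (not necessarily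
induced) subgraph. -/
def HasCopy {W V : Type} (A : W → W → Prop) (D : V → V → Prop) : Prop :=
  ∃ f : W → V, Function.Injective f ∧ ∀ u v, A u v → D (f u) (f v)

/-- Two directed graphs are isomorphic. -/
def DirIso {V W : Type} (D : V → V → Prop) (E : W → W → Prop) : Prop :=
  ∃ e : V ≃ W, ∀ u v, D u v ↔ E (e u) (e v)

/-- `D(G, A)`: the number of orientations of `G` that contain no copy of `A`. -/
noncomputable def numFree {V W : Type} (G : SimpleGraph V) (A : W → W → Prop) : ℕ :=
  Nat.card {D : V → V → Prop // IsOrientation G D ∧ ¬ HasCopy A D}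

/-- `D(n, A)`: the maximum of `D(G, A)` over all graphs `G` with `n` vertices. -/
noncomputable def maxFree {W : Type} (n : ℕ) (A : W → W → Prop) : ℕ :=
  ⨆ G : SimpleGraph (Fin n), numFree G A

/-- The host graph `G_M(t)` for a graph `M` and `r = p - 1`: `M` with `t` isolated vertices added,
joined completely to the complete `r`-partite graph with parts of size `t`. The vertices
`inl (inl v)` are the vertices of `M`, the `inl (inr i)` are the added isolated vertices, and
`inr (j, i)` is the `i`-th vertex of the `j`-th part. -/
def host {V : Type} (M : SimpleGraph V) (r t : ℕ) :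
    SimpleGraph ((V ⊕ Fin t) ⊕ (Fin r × Fin t)) where
  Adj
    | .inl (.inl u), .inl (.inl v) => M.Adj u v
    | .inl _, .inl _ => False
    | .inl _, .inr _ => True
    | .inr _, .inl _ => True
    | .inr x, .inr y => x.1 ≠ y.1
  symm := ⟨by
    rintro ((u | i) | x) ((v | j) | y) h
    all_goals first
      | exact h.symm
      | exact h⟩
  loopless := ⟨by
    rintro ((u | i) | x) h
    · exact M.loopless.irrefl u h
    · exact h
    · exact h rfl⟩

/-- `M` belongs to the decomposition family of `H`: with `χ(H) = p + 1` and `p ≥ 1`, some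
`G_M(t)` contains `H`, and for no proper subgraph `M'` of `M` some `G_{M'}(t)` contains `H`. -/
def InFamily {V W : Type} (H : SimpleGraph W) (M : SimpleGraph V) : Prop :=
  ∃ p : ℕ, 1 ≤ p ∧ H.chromaticNumber = (p + 1 : ℕ) ∧
    (∃ t : ℕ, 1 ≤ t ∧ H ⊑ host M (p - 1) t) ∧
    ∀ M' : M.Subgraph, M' ≠ ⊤ → ¬ ∃ t : ℕ, 1 ≤ t ∧ H ⊑ host M'.coe (p - 1) t

/-- The directed graph `D`, an orientation of `M`, belongs to the decomposition family of the
orientation `A` of `H`: `M` is in the decomposition family of `H`, and for some `t ≥ 1` there is an
orientation of `G_M(t)` that contains a copy of `A` and whose restriction to the vertices of `M` is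
isomorphic to `D`. -/
def InDirFamily {V W : Type} (H : SimpleGraph W) (A : W → W → Prop)
    (M : SimpleGraph V) (D : V → V → Prop) : Prop :=
  InFamily H M ∧ IsOrientation M D ∧
    ∃ p : ℕ, 1 ≤ p ∧ H.chromaticNumber = (p + 1 : ℕ) ∧ ∃ t : ℕ, 1 ≤ t ∧
      ∃ E : ((V ⊕ Fin t) ⊕ (Fin (p - 1) × Fin t)) → ((V ⊕ Fin t) ⊕ (Fin (p - 1) × Fin t)) → Prop,
        IsOrientation (host M (p - 1) t) E ∧ HasCopy A E ∧
          DirIso (fun u v : V => E (.inl (.inl u)) (.inl (.inl v))) D

/-- Every orientation of every member of the decomposition family of `H` is in the decomposition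
family of the orientation `A` of `H`. -/
def FullFamily {W : Type} (H : SimpleGraph W) (A : W → W → Prop) : Prop :=
  ∀ (V : Type) [Finite V] (M : SimpleGraph V) (D : V → V → Prop),
    InFamily H M → IsOrientation M D → InDirFamily H A M D

/-- The question Q1: if `A` is an orientation of a finite graph `H` with at least one edge for which
the directed decomposition family consists of all orientations of the decomposition family of `H`,
then `D(n, A) = 2 ^ ex(n, H)` for all large `n`. -/
def Question : Prop :=
  ∀ (W : Type) [Finite W] (H : SimpleGraph W) (A : W → W → Prop),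
    IsOrientation H A → (∃ u v, H.Adj u v) → FullFamily H A →
      ∃ n₀ : ℕ, ∀ n : ℕ, n₀ ≤ n → maxFree n A = 2 ^ extremalNumber n H

end Pool.Agent.Helper47_Orient
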