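import Pool.Agent.Helper47_Orient.Extremal
namespace Pool.Agent.Helper47_Orient

open Finset

lemma config_induce {V : Type} {G : SimpleGraph V} {s : Set V} (h : Config (G.induce s)) :
    Config G := by
  obtain ⟨a, b, c, d, x, y, h1, h2, h3, h4, h5, h6, h7, h8⟩ := h
  refine ⟨a, b, c, d, x, y, h1, h2, ?_, ?_, ?_, ?_, ?_, h8⟩
  · exact fun e => h3 (Subtype.ext e)
  · exact fun e => h4 (Subtype.ext e)
  · exact fun e => h5 (Subtype.ext e)
  · exact fun e => h6 (Subtype.ext e)
  · exact fun e => h7 (Subtype.ext e)

theorem extremal_bound {V : Type} [Fintype V] [DecidableEq V] (G : SimpleGraph V)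
    [DecidableRel G.Adj] (hG : ¬ Config G) (hbig : 10 ^ 20 ≤ Fintype.card V) :
    (G.edgeFinset.card : ℝ) ≤ (Fintype.card V : ℝ) ^ 2 / 4 + 0.53 * Fintype.card V := by
  classical
  by_contra hcon
  push Not at hcon
  set n : ℝ := (Fintype.card V : ℝ) with hn
  have hnbig : (10 : ℝ) ^ 20 ≤ n := by rw [hn]; exact_mod_cast hbig
  let φ : Finset V → ℝ := fun U => (∑ v ∈ U, dg G U v) / 2 - (U.card : ℝ) ^ 2 / 4 - 0.52 * U.card
  obtain ⟨U, -, hU⟩ := Finset.exists_max_image (univ : Finset (Finset V)) φ ⟨univ, mem_univ _⟩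
  have hφuniv : 0.01 * n < φ univ := by
    have h1 : ∑ v ∈ (univ : Finset V), dg G univ v = 2 * (G.edgeFinset.card : ℝ) := by
      have h2 := G.sum_degrees_eq_twice_card_edges
      have h3 : ∑ v ∈ (univ : Finset V), dg G univ v = ((∑ v, G.degree v : ℕ) : ℝ) := by
        push_cast
        refine sum_congr rfl fun v _ => ?_
        unfold dg
        rw [inter_univ, G.card_neighborFinset_eq_degree]
      rw [h3, h2]
      push_cast
      ring
    simp only [φ]
    rw [h1, card_univ, ← hn]
    linarith
  have hφU : 0.01 * n < φ U := lt_of_lt_of_le hφuniv (hU univ (mem_univ _))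
  have hE2 : ∑ v ∈ U, dg G U v ≤ (U.card : ℝ) ^ 2 := by
    calc ∑ v ∈ U, dg G U v ≤ ∑ v ∈ U, (U.card : ℝ) := sum_le_sum fun v _ => dg_le G _ v
      _ = (U.card : ℝ) ^ 2 := by rw [sum_const, nsmul_eq_mul]; ring
  have hUbig : (10 : ℝ) ^ 9 ≤ (U.card : ℝ) := by
    have h1 : 0.04 * n < (U.card : ℝ) ^ 2 := by
      have h2 : (0 : ℝ) ≤ U.card := by positivity
      simp only [φ] at hφU
      linarith
    by_contra h3
    push Not at h3
    have h4 : (0 : ℝ) ≤ U.card := by positivity
    have h5 : (U.card : ℝ) ^ 2 < (10 ^ 9) ^ 2 := by gcongr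
    norm_num at h5 hnbig
    linarith
  have hmin : ∀ u ∈ U, (U.card : ℝ) / 2 + 0.27 ≤ dg G U u := by
    intro u hu
    have h1 := hU (U.erase u) (mem_univ _)
    have h2 : ∑ v ∈ U.erase u, dg G (U.erase u) v = ∑ v ∈ U, dg G U v - 2 * dg G U u := by
      have h3 : ∀ v ∈ U.erase u, dg G (U.erase u) v = dg G U v - (if G.Adj v u then 1 else 0) := by
        intro v hv
        unfold dg
        by_cases hvu : G.Adj v u
        · rw [if_pos hvu]
          have h4 : G.neighborFinset v ∩ U.erase u = (G.neighborFinset v ∩ U).erase u := by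
            rw [inter_erase]
          rw [h4, card_erase_of_mem (by simp [hvu, hu])]
          have h5 : 0 < (G.neighborFinset v ∩ U).card := card_pos.2 ⟨u, by simp [hvu, hu]⟩
          rw [Nat.cast_sub h5]
          simp
        · rw [if_neg hvu]
          have h4 : G.neighborFinset v ∩ U.erase u = (G.neighborFinset v ∩ U).erase u := by
            rw [inter_erase]
          rw [h4, erase_eq_of_notMem (by simp [hvu])]
          simp
      rw [sum_congr rfl h3, sum_sub_distrib]
      have h6 := sum_erase_eq_sub (f := fun v => dg G U v) hu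
      rw [h6]
      have h7 : ∑ v ∈ U.erase u, (if G.Adj v u then (1 : ℝ) else 0) = dg G U u := by
        rw [sum_erase_eq_sub hu]
        simp only [SimpleGraph.irrefl, if_false, sub_zero]
        unfold dg
        rw [inter_comm, ← filter_mem_eq_inter, card_filter]
        push_cast
        refine sum_congr rfl fun w _ => ?_
        simp [G.adj_comm]
      rw [h7]
      ring
    simp only [φ] at h1
    rw [h2, card_erase_of_mem hu] at h1
    have h8 : 0 < U.card := card_pos.2 ⟨u, hu⟩
    rw [Nat.cast_sub h8] at h1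
    push_cast at h1
    nlinarith
  -- pass to the induced graph
  have hdegree : ∀ v : (U : Set V), ((G.induce (U : Set V)).degree v : ℝ) = dg G U v := by
    intro v
    unfold dg
    rw [← SimpleGraph.card_neighborFinset_eq_degree]
    have h1 : (G.induce (U : Set V)).neighborFinset v
        = (G.neighborFinset v).subtype (fun w => w ∈ (U : Set V)) := by
      ext w
      simp
    rw [h1, card_subtype, ← filter_mem_eq_inter]
    congr 2
  have hcardU : Fintype.card (U : Set V) = U.card := by simp
  have hmain := main_bound (G.induce (U : Set V)) (fun h => hG (config_induce h)) (by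
    intro v
    have h1 := hmin v v.2
    rw [← hdegree v] at h1
    rw [hcardU]
    have h2 : (U.card : ℝ) < ((2 * (G.induce (U : Set V)).degree v : ℕ) : ℝ) := by
      push_cast
      linarith
    have h3 : U.card < 2 * (G.induce (U : Set V)).degree v := by exact_mod_cast h2
    omega) (by
    rw [hcardU]
    exact_mod_cast hUbig)
  rw [hcardU] at hmain
  have hsum : ∑ v : (U : Set V), ((G.induce (U : Set V)).degree v : ℝ) = ∑ v ∈ U, dg G U v := by
    rw [← sum_coe_sort U]
    exact sum_congr rfl fun v _ => hdegree v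
  rw [hsum] at hmain
  simp only [φ] at hφU
  linarith

end Pool.Agent.Helper47_Orient
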